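import Mathlib

/-!
# Non-uniqueness for the Legendre-Fenchel fixed-point equation

If `g` is continuous and increasing with `g (g x / τ) = x + c`, then a suitable primitive `f` of `g`
satisfies `f(x) = τ f^*(x + c)`, because the derivative of `f` is `g` and the derivative of `f^*` is
the inverse of `g`. For `τ ≠ 1` and `c = 0`, and for `τ = 1` and `c ≠ 0`, the functional equation has
non-affine solutions: take `φ(x) = x (1 + ε sin (2 π log |x| / log τ))` and
`g(x) = τ φ⁻¹(φ(x) / √τ)`, respectively `φ(x) = x + c/(4π) sin (2 π x / c)` and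
`g(x) = φ⁻¹(φ(x) + c/2)`.
-/

namespace Pool.Agent.Results.MP_02ff8d_an.NotUnique

open Filter Topology Set

/-- The Legendre-Fenchel conjugate of a function on a real inner product space with values in the
extended reals. -/
noncomputable def conj {X : Type*} [NormedAddCommGroup X] [InnerProductSpace ℝ X]
    (f : X → EReal) (y : X) : EReal := ⨆ x, ((inner ℝ y x : ℝ) : EReal) - f x

/-- `f` satisfies the fixed-point equation with parameters `τ`, `E`, `c`, `w`, `β`. -/
def Solves {X : Type*} [NormedAddCommGroup X] [InnerProductSpace ℝ X]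
    (τ : ℝ) (E : X ≃L[ℝ] X) (c w : X) (β : ℝ) (f : X → EReal) : Prop :=
  ∀ x, f x = (τ : EReal) * conj f (E x + c) + ((inner ℝ w x : ℝ) : EReal) + (β : EReal)

/-- The quadratic solution `f₀`. -/
noncomputable def quad {X : Type*} [NormedAddCommGroup X] [InnerProductSpace ℝ X]
    (τ : ℝ) (E : X ≃L[ℝ] X) (c w : X) (β : ℝ) (x : X) : EReal :=
  ((1 / 2 * inner ℝ (√τ • E x) x + inner ℝ ((1 / (1 + √τ)) • (w + √τ • c)) x +
    (β * (1 + √τ) ^ 2 + 1 / 2 * √τ * inner ℝ (c - w) (E.symm (c - w))) / ((1 + √τ) ^ 2 * (τ + 1)) : ℝ) :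
    EReal)

/-! ### From a functional equation to a solution -/

lemma conj_real (f g : ℝ → ℝ) (hsub : ∀ x y, g x * (y - x) ≤ f y - f x) (z h : ℝ) (hz : g h = z) :
    conj (fun x : ℝ => (f x : EReal)) z = ((z * h - f h : ℝ) : EReal) := by
  unfold conj
  apply le_antisymm
  · apply iSup_le
    intro x
    have h1 := hsub h x
    rw [hz] at h1
    have h2 : (inner ℝ z x : ℝ) = z * x := by simp [mul_comm]
    rw [h2, ← EReal.coe_sub, EReal.coe_le_coe_iff]
    linarith
  · have h2 : (inner ℝ z h : ℝ) = z * h := by simp [mul_comm]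
    refine le_trans ?_ (le_iSup (fun x : ℝ => ((inner ℝ z x : ℝ) : EReal) - (f x : EReal)) h)
    rw [h2, ← EReal.coe_sub]

lemma core {τ c : ℝ} (hτ : 0 < τ) (g : ℝ → ℝ) (hg : Continuous g) (hm : Monotone g)
    (hfun : ∀ x, g (g x / τ) = x + c) :
    ∃ f : ℝ → ℝ, (∀ x, HasDerivAt f (g x) x) ∧
      ∀ x, (f x : EReal) = (τ : EReal) * conj (fun x : ℝ => (f x : EReal)) (x + c) := by
  set F : ℝ → ℝ := fun x => ∫ t in (0:ℝ)..x, g t with hF
  have hFd : ∀ x, HasDerivAt F (g x) x := fun x => (hg.integral_hasStrictDerivAt 0 x).hasDerivAt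
  have hFsub : ∀ x y, g x * (y - x) ≤ F y - F x := by
    intro x y
    have h1 : F y - F x = ∫ t in x..y, g t := by
      rw [hF]
      simp only
      rw [intervalIntegral.integral_interval_sub_left (hg.intervalIntegrable _ _)
        (hg.intervalIntegrable _ _)]
    have h2 : g x * (y - x) = ∫ t in x..y, g x := by
      rw [intervalIntegral.integral_const]; simp [mul_comm]
    rw [h1, h2]
    rcases le_total x y with h | h
    · apply intervalIntegral.integral_mono_on h (by simp) (hg.intervalIntegrable _ _)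
      intro t ht
      exact hm ht.1
    · rw [intervalIntegral.integral_symm y x, intervalIntegral.integral_symm y x]
      apply neg_le_neg
      apply intervalIntegral.integral_mono_on h (hg.intervalIntegrable _ _) (by simp)
      intro t ht
      exact hm ht.2
  set Φ : ℝ → ℝ := fun x => F x + τ * F (g x / τ) - (x + c) * g x with hΦ
  have hτF : ∀ x y, (x + c) * (g y - g x) ≤ τ * F (g y / τ) - τ * F (g x / τ) := by
    intro x y
    have h1 := hFsub (g x / τ) (g y / τ)
    rw [hfun] at h1
    have h2 : (x + c) * (g y / τ - g x / τ) = (x + c) * (g y - g x) / τ := by ring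
    rw [h2, div_le_iff₀ hτ] at h1
    linarith
  have hΦ1 : ∀ x y, Φ y - Φ x ≤ (y - x) * (g y - g x) := by
    intro x y
    have h1 := hFsub y x
    have h2 := hτF y x
    rw [hΦ]
    simp only
    nlinarith
  have hΦ2 : ∀ x y, |Φ y - Φ x| ≤ |y - x| * |g y - g x| := by
    intro x y
    rw [← abs_mul, abs_le]
    constructor
    · have h1 := hΦ1 y x
      have h2 : (x - y) * (g x - g y) = (y - x) * (g y - g x) := by ring
      rw [h2] at h1
      have h3 := le_abs_self ((y - x) * (g y - g x))
      linarith
    · exact (hΦ1 x y).trans (le_abs_self _)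
  have hΦd : ∀ x, HasDerivAt Φ 0 x := by
    intro x
    rw [hasDerivAt_iff_isLittleO]
    rw [Asymptotics.isLittleO_iff]
    intro ε hε
    have h1 : ∀ᶠ y in 𝓝 x, |g y - g x| < ε := by
      have := (hg.tendsto x).eventually (Metric.ball_mem_nhds (g x) hε)
      filter_upwards [this] with y hy
      rwa [Real.dist_eq] at hy
    filter_upwards [h1] with y hy
    simp only [smul_zero, sub_zero, Real.norm_eq_abs]
    refine (hΦ2 x y).trans ?_
    rw [mul_comm]
    exact mul_le_mul_of_nonneg_right hy.le (abs_nonneg _)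
  have hΦc : ∀ x, Φ x = Φ 0 := fun x =>
    is_const_of_deriv_eq_zero (fun y => (hΦd y).differentiableAt) (fun y => (hΦd y).deriv) x 0
  set k : ℝ := -Φ 0 / (1 + τ) with hk
  have hk1 : k + τ * k = -Φ 0 := by
    rw [hk]
    have : 1 + τ ≠ 0 := by linarith
    field_simp
    ring
  refine ⟨fun x => F x + k, fun x => (hFd x).add_const k, fun x => ?_⟩
  have hsub' : ∀ x y, g x * (y - x) ≤ (F y + k) - (F x + k) := by
    intro x y; have := hFsub x y; linarith
  rw [conj_real (fun x => F x + k) g hsub' (x + c) (g x / τ) (hfun x)]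
  rw [← EReal.coe_mul, EReal.coe_eq_coe_iff]
  have h1 := hΦc x
  rw [hΦ] at h1
  simp only at h1
  have h2 : τ * ((x + c) * (g x / τ) - (F (g x / τ) + k)) = (x + c) * g x - τ * F (g x / τ) - τ * k := by
    field_simp
    ring
  rw [h2]
  have h3 : Φ 0 = F 0 + τ * F (g 0 / τ) - (0 + c) * g 0 := rfl
  rw [← h3] at h1
  linarith

/-! ### Order isomorphisms from homeomorphisms -/

lemma exists_iso (φ : ℝ → ℝ) (hs : StrictMono φ) (hc : Continuous φ)
    (h1 : Tendsto φ atTop atTop) (h2 : Tendsto φ atBot atBot) : ∃ e : ℝ ≃o ℝ, ∀ x, e x = φ x :=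
  ⟨StrictMono.orderIsoOfSurjective φ hs (hc.surjective h1 h2), fun _ => rfl⟩


lemma case_tau {τ : ℝ} (hτ : 0 < τ) (h1 : τ ≠ 1) : ∃ g : ℝ → ℝ, Continuous g ∧ Monotone g ∧
    (∀ x, g (g x / τ) = x + 0) ∧ ∃ x, g x ≠ √τ * x := by
  have hL : Real.log τ ≠ 0 := by
    intro h
    rcases Real.log_eq_zero.mp h with h | h | h <;> first | linarith | exact h1 h
  set κ : ℝ := 2 * Real.pi / Real.log τ with hκ
  have hκL : κ * Real.log τ = 2 * Real.pi := by rw [hκ]; field_simp
  set ε : ℝ := 1 / (2 * (1 + |κ|)) with hε
  have hκ0 : 0 ≤ |κ| := abs_nonneg κ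
  have hε0 : 0 < ε := by rw [hε]; positivity
  have hεκ : ε * (1 + |κ|) = 1 / 2 := by rw [hε]; field_simp
  have hε1 : ε ≤ 1 / 2 := by nlinarith
  set φ : ℝ → ℝ := fun x => x * (1 + ε * Real.sin (κ * Real.log x)) with hφ
  have hodd : ∀ x, φ (-x) = -φ x := by
    intro x; rw [hφ]; simp only [Real.log_neg_eq_log]; ring
  have hfac : ∀ t, 1 / 2 ≤ 1 + ε * Real.sin t ∧ 1 + ε * Real.sin t ≤ 2 := by
    intro t
    have h2 := Real.neg_one_le_sin t
    have h3 := Real.sin_le_one t
    constructor <;> nlinarith
  have hcont : Continuous φ := by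
    rw [continuous_iff_continuousAt]
    intro x
    by_cases hx : x = 0
    · subst hx
      have h2 : Tendsto (fun x : ℝ => 2 * |x|) (𝓝 0) (𝓝 0) := by
        have : Continuous (fun x : ℝ => 2 * |x|) := by fun_prop
        have h3 := this.tendsto 0
        simpa using h3
      have h3 : φ 0 = 0 := by rw [hφ]; simp
      unfold ContinuousAt
      rw [h3]
      apply squeeze_zero_norm _ h2
      intro x
      rw [Real.norm_eq_abs, hφ]
      simp only
      rw [abs_mul, mul_comm]
      apply mul_le_mul_of_nonneg_right _ (abs_nonneg x)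
      have := hfac (κ * Real.log x)
      rw [abs_of_nonneg (by linarith)]
      exact this.2
    · rw [hφ]
      have := Real.continuousAt_log hx
      fun_prop
  have hderiv : ∀ x, 0 < x → HasDerivAt φ (1 + ε * Real.sin (κ * Real.log x)
      + ε * κ * Real.cos (κ * Real.log x)) x := by
    intro x hx
    have h2 := (Real.hasDerivAt_log hx.ne').const_mul κ
    have h3 := (h2.sin.const_mul ε).const_add 1
    have h4 := (hasDerivAt_id x).mul h3
    refine h4.congr_deriv ?_
    simp only [id]
    field_simp
  have hpos : ∀ x, 0 < x → 0 < deriv φ x := by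
    intro x hx
    rw [(hderiv x hx).deriv]
    have h2 := Real.neg_one_le_sin (κ * Real.log x)
    have h3 : -|κ| ≤ κ * Real.cos (κ * Real.log x) := by
      have h4 : |κ * Real.cos (κ * Real.log x)| ≤ |κ| := by
        rw [abs_mul]
        have := Real.abs_cos_le_one (κ * Real.log x)
        nlinarith
      exact (abs_le.mp h4).1
    nlinarith
  have hmono1 : StrictMonoOn φ (Ici 0) := by
    apply strictMonoOn_of_deriv_pos (convex_Ici 0) hcont.continuousOn
    intro x hx
    rw [interior_Ici] at hx
    exact hpos x hx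
  have hmono2 : StrictMonoOn φ (Iic 0) := by
    intro x hx y hy hxy
    have h2 := hmono1 (show -y ∈ Ici (0:ℝ) by simpa using hy) (show -x ∈ Ici (0:ℝ) by simpa using hx)
      (by linarith)
    rw [hodd, hodd] at h2
    linarith
  have hmono : StrictMono φ := hmono2.Iic_union_Ici hmono1
  have htop : Tendsto φ atTop atTop := by
    apply tendsto_atTop_mono' atTop _ (tendsto_id.atTop_div_const (show (0:ℝ) < 2 by norm_num))
    filter_upwards [eventually_ge_atTop (0:ℝ)] with x hx
    rw [hφ]
    simp only [id]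
    have := hfac (κ * Real.log x)
    nlinarith [this.1]
  have hbot : Tendsto φ atBot atBot := by
    apply tendsto_atBot_mono' atBot _ (tendsto_id.atBot_div_const (show (0:ℝ) < 2 by norm_num))
    filter_upwards [eventually_le_atBot (0:ℝ)] with x hx
    rw [hφ]
    simp only [id]
    have := hfac (κ * Real.log x)
    nlinarith [this.1]
  obtain ⟨e, he⟩ := exists_iso φ hmono hcont htop hbot
  have hs0 : 0 < √τ := Real.sqrt_pos.mpr hτ
  have hss : √τ * √τ = τ := Real.mul_self_sqrt hτ.le
  have hscale : ∀ x, φ (x / τ) = φ x / τ := by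
    intro x
    by_cases hx : x = 0
    · subst hx; rw [hφ]; simp
    · rw [hφ]
      simp only
      rw [Real.log_div hx hτ.ne', mul_sub, hκL, Real.sin_sub_two_pi]
      ring
  have hlogs : κ * Real.log (√τ) = Real.pi := by
    rw [Real.log_sqrt hτ.le]
    linarith
  refine ⟨fun x => τ * e.symm (e x / √τ), ?_, ?_, ?_, ?_⟩
  · have h2 : Continuous e := e.continuous
    have h3 : Continuous e.symm := e.symm.continuous
    exact continuous_const.mul (h3.comp (h2.div_const _))
  · intro x y hxy
    apply mul_le_mul_of_nonneg_left _ hτ.le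
    apply e.symm.monotone
    exact div_le_div_of_nonneg_right (e.monotone hxy) hs0.le
  · intro x
    simp only
    rw [mul_div_cancel_left₀ _ hτ.ne', OrderIso.apply_symm_apply, add_zero]
    have h2 : e x / √τ / √τ = e (x / τ) := by
      rw [he, he, hscale, div_div, hss]
    rw [h2, OrderIso.symm_apply_apply]
    field_simp
  · have hκne : κ ≠ 0 := by
      intro h; rw [h, zero_mul] at hκL; linarith [Real.pi_pos]
    set x0 : ℝ := Real.exp (Real.pi / 2 / κ) with hx0
    have hx0p : 0 < x0 := Real.exp_pos _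
    have hlx : κ * Real.log x0 = Real.pi / 2 := by
      rw [hx0, Real.log_exp]; field_simp
    refine ⟨x0, fun h => ?_⟩
    simp only at h
    have h2 : e.symm (e x0 / √τ) = x0 / √τ := by
      have : τ * e.symm (e x0 / √τ) = τ * (x0 / √τ) := by
        rw [h]
        field_simp
        nlinarith
      exact mul_left_cancel₀ hτ.ne' this
    have h3 : e x0 / √τ = e (x0 / √τ) := by
      rw [← h2, OrderIso.apply_symm_apply]
    rw [he, he, hφ] at h3
    simp only at h3
    rw [Real.log_div hx0p.ne' hs0.ne', mul_sub, hlx, hlogs] at h3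
    have h4 : Real.sin (Real.pi / 2 - Real.pi) = -1 := by
      rw [show Real.pi / 2 - Real.pi = -(Real.pi / 2) by ring, Real.sin_neg, Real.sin_pi_div_two]
    rw [h4, Real.sin_pi_div_two] at h3
    have h5 : x0 * (1 + ε * 1) / √τ = x0 / √τ * (1 + ε) := by ring
    rw [h5] at h3
    have h6 : 0 < x0 / √τ := by positivity
    have h7 : (1 + ε) = (1 + ε * -1) := mul_left_cancel₀ h6.ne' h3
    linarith

lemma case_c {c : ℝ} (hc : c ≠ 0) : ∃ g : ℝ → ℝ, Continuous g ∧ Monotone g ∧
    (∀ x, g (g x / 1) = x + c) ∧ ∃ x, g x ≠ x + c / 2 := by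
  set φ : ℝ → ℝ := fun x => x + c / (4 * Real.pi) * Real.sin (2 * Real.pi / c * x) with hφ
  have hpi := Real.pi_pos
  have hderiv : ∀ x, HasDerivAt φ (1 + 1 / 2 * Real.cos (2 * Real.pi / c * x)) x := by
    intro x
    have h2 := ((hasDerivAt_id x).const_mul (2 * Real.pi / c)).sin.const_mul (c / (4 * Real.pi))
    have h3 := (hasDerivAt_id x).add h2
    refine h3.congr_deriv ?_
    simp only [id]
    field_simp
    ring
  have hcont : Continuous φ := by rw [hφ]; fun_prop
  have hmono : StrictMono φ := by
    apply strictMono_of_deriv_pos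
    intro x
    rw [(hderiv x).deriv]
    have := Real.neg_one_le_cos (2 * Real.pi / c * x)
    linarith
  have hb : ∀ x, |φ x - x| ≤ |c / (4 * Real.pi)| := by
    intro x
    rw [hφ]
    simp only [add_sub_cancel_left]
    rw [abs_mul]
    have := Real.abs_sin_le_one (2 * Real.pi / c * x)
    have h0 := abs_nonneg (c / (4 * Real.pi))
    nlinarith
  have htop : Tendsto φ atTop atTop := by
    apply tendsto_atTop_mono _ (tendsto_atTop_add_const_right atTop (-|c / (4 * Real.pi)|) tendsto_id)
    intro x
    have := (abs_le.mp (hb x)).1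
    simp only [id]
    linarith
  have hbot : Tendsto φ atBot atBot := by
    apply tendsto_atBot_mono _ (tendsto_atBot_add_const_right atBot (|c / (4 * Real.pi)|) tendsto_id)
    intro x
    have := (abs_le.mp (hb x)).2
    simp only [id]
    linarith
  obtain ⟨e, he⟩ := exists_iso φ hmono hcont htop hbot
  have hshift : ∀ x, φ (x + c) = φ x + c := by
    intro x
    rw [hφ]
    simp only
    have : 2 * Real.pi / c * (x + c) = 2 * Real.pi / c * x + 2 * Real.pi := by field_simp
    rw [this, Real.sin_add_two_pi]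
    ring
  refine ⟨fun x => e.symm (e x + c / 2), ?_, ?_, ?_, ?_⟩
  · have h2 : Continuous e := e.continuous
    have h3 : Continuous e.symm := e.symm.continuous
    exact h3.comp (h2.add continuous_const)
  · intro x y hxy
    apply e.symm.monotone
    have := e.monotone hxy
    linarith
  · intro x
    simp only [div_one, OrderIso.apply_symm_apply]
    have h2 : e x + c / 2 + c / 2 = e (x + c) := by rw [he, he, hshift]; ring
    rw [h2, OrderIso.symm_apply_apply]
  · refine ⟨c / 4, fun h => ?_⟩
    simp only at h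
    have h3 : e (c / 4) + c / 2 = e (c / 4 + c / 2) := by
      rw [← h, OrderIso.apply_symm_apply]
    rw [he, he, hφ] at h3
    simp only at h3
    have h4 : 2 * Real.pi / c * (c / 4) = Real.pi / 2 := by field_simp; norm_num
    have h5 : 2 * Real.pi / c * (c / 4 + c / 2) = Real.pi / 2 + Real.pi := by field_simp; norm_num
    rw [h4, h5, Real.sin_add_pi, Real.sin_pi_div_two] at h3
    have h6 : c / (4 * Real.pi) = 0 := by linarith
    rw [div_eq_zero_iff] at h6
    rcases h6 with h6 | h6
    · exact hc h6
    · linarith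

/-- Uniqueness fails in both special cases, already for `X = ℝ` and `E` the identity: for every
`τ > 0`, `τ ≠ 1`, the equation `f = τ f^*` has a solution other than `f₀`, and for every `c ≠ 0` the
equation `f(x) = f^*(x + c)` has a solution other than `f₀`. -/
theorem result :
    (∀ τ : ℝ, 0 < τ → τ ≠ 1 → ∃ f : ℝ → EReal,
      Solves τ (ContinuousLinearEquiv.refl ℝ ℝ) 0 0 0 f ∧
        f ≠ quad τ (ContinuousLinearEquiv.refl ℝ ℝ) 0 0 0) ∧
    (∀ c : ℝ, c ≠ 0 → ∃ f : ℝ → EReal,
      Solves 1 (ContinuousLinearEquiv.refl ℝ ℝ) c 0 0 f ∧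
        f ≠ quad 1 (ContinuousLinearEquiv.refl ℝ ℝ) c 0 0) := by
  constructor
  · intro τ hτ h1
    obtain ⟨g, hg, hm, hfun, x0, hx0⟩ := case_tau hτ h1
    obtain ⟨f, hf, hsol⟩ := core hτ g hg hm hfun
    refine ⟨fun x => (f x : EReal), fun x => ?_, fun h => ?_⟩
    · have := hsol x
      simp only [ContinuousLinearEquiv.refl_apply, inner_zero_left, EReal.coe_zero, add_zero] at this ⊢
      exact this
    · have h2 : ∀ x, f x = 1 / 2 * √τ * x ^ 2 := by
        intro x
        have h3 := congrFun h x
        unfold quad at h3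
        rw [EReal.coe_eq_coe_iff] at h3
        rw [h3]
        simp
        ring
      have h3 : f = fun x => 1 / 2 * √τ * x ^ 2 := funext h2
      have h4 : HasDerivAt f (√τ * x0) x0 := by
        rw [h3]
        have := ((hasDerivAt_pow 2 x0).const_mul (1 / 2 * √τ))
        refine this.congr_deriv ?_
        push_cast
        ring
      exact hx0 ((hf x0).unique h4)
  · intro c hc
    obtain ⟨g, hg, hm, hfun, x0, hx0⟩ := case_c hc
    obtain ⟨f, hf, hsol⟩ := core one_pos g hg hm hfun
    refine ⟨fun x => (f x : EReal), fun x => ?_, fun h => ?_⟩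
    · have := hsol x
      simp only [ContinuousLinearEquiv.refl_apply, inner_zero_left, EReal.coe_zero, add_zero] at this ⊢
      exact this
    · have h2 : ∀ x, f x = 1 / 2 * x ^ 2 + c / 2 * x + c ^ 2 / 16 := by
        intro x
        have h3 := congrFun h x
        unfold quad at h3
        rw [EReal.coe_eq_coe_iff] at h3
        rw [h3]
        simp
        ring
      have h3 : f = fun x => 1 / 2 * x ^ 2 + c / 2 * x + c ^ 2 / 16 := funext h2
      have h4 : HasDerivAt f (x0 + c / 2) x0 := by
        rw [h3]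
        have := (((hasDerivAt_pow 2 x0).const_mul (1 / 2)).add
          ((hasDerivAt_id x0).const_mul (c / 2))).add_const (c ^ 2 / 16)
        refine this.congr_deriv ?_
        push_cast
        ring
      exact hx0 ((hf x0).unique h4)

end Pool.Agent.Results.MP_02ff8d_an.NotUnique
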